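import Pool.Agent.Helper84.W3GeomData

set_option autoImplicit false

namespace Pool.Agent.Results.MP_6466f5_co.GeometricRealization

open Pool.Agent.Helper84.Topo

/-- Both trilateral-free configurations `(40_4)`, the symplectic quadrangle `W(3)` and its dual,
admit geometric realizations: 40 points and 40 straight lines in the real projective plane with
exactly the prescribed incidences. -/
theorem result :
    GeometricallyRealizable W3Inc ∧
      GeometricallyRealizable (fun (l : W3Line) (p : W3Point) => W3Inc p l) :=
  ⟨w3_geom, w3_dual_geom⟩

end Pool.Agent.Results.MP_6466f5_co.GeometricRealization
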