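import Pool.Agent.Helper84.RP2Data

set_option autoImplicit false

namespace Pool.Agent.Results.MP_6466f5_co.TopologicalRealization

open Pool.Agent.Helper84.Topo

/-- Both trilateral-free configurations `(40_4)`, the symplectic quadrangle `W(3)` and its dual,
admit topological realizations: arrangements of 40 points and 40 pseudolines in the real
projective plane with exactly the prescribed incidences. -/
theorem result :
    TopologicallyRealizable W3Inc ∧
      TopologicallyRealizable (fun (l : W3Line) (p : W3Point) => W3Inc p l) :=
  ⟨w3_realizable, w3_dual_realizable⟩

end Pool.Agent.Results.MP_6466f5_co.TopologicalRealization
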